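import Pool.Agent.Helper21.Par.Lower

open Pool.Agent.Helper21.AC0p Pool.Agent.Helper21.Lin

/-- Exponential lower bound for lines of bounded nesting over polynomial equations modulo `p`.
Formulas equivalent to a polynomial equation of degree at most `k` over `ZMod p` are free; above
them, disjunctions and `MOD_p` are nested at most `h + 1` deep, and every disjunction has at most
`t` distinct disjuncts that are not equations (and any number of equations). With `h = t = 0` the
lines are disjunctions of equations: this is dag-like resolution over `ZMod p`-linear equations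
for `k = 1` (for `p = 2`, resolution over parities). The refutations are semantic, of fan-in at
most `a`. -/
theorem Pool.Agent.Results.MP_7a4ff1_lc.DagResLin.result (p : ℕ) (hp : p.Prime) :
    ∃ (c : ℕ) (F : ℕ → List Clause),
      (∀ n, (∀ C ∈ F n, C.length ≤ c * Nat.log 2 (n + 2) ∧ ∀ l ∈ C, l.1 < n) ∧
        (F n).length ≤ (n + 2) ^ c ∧ Unsat (F n)) ∧
      ∀ a h : ℕ, ∃ C : ℕ, ∀ n k t : ℕ,
        C ^ (k + 1) * (t + 1) ^ (h + 1) * (Nat.log 2 n + 1) ≤ n → ∀ π : List Fm,
        SemRefutation p a (F n) π → (∀ A ∈ π, A.heightOver (Fm.IsEqn p k) ≤ h + 1) →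
        (∀ (m : ℕ) (f : Fin m → Fm), ¬ (Fm.or m f).IsEqn p k →
          (∃ A ∈ π, Fm.IsSub (Fm.or m f) A) →
            {B | B ∈ Set.range f ∧ ¬ B.IsEqn p k}.ncard ≤ t) →
        2 ^ (n / (C ^ (k + 1) * (t + 1) ^ h)) ≤ numOrNot (Fm.IsEqn p k) π :=
  Pool.Agent.Helper21.Par.par_lower p hp
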