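import Pool.Agent.Helper21.Sml.Final

open Pool.Agent.Helper21.AC0p

/-- Exponential lower bound for Frege with `MOD_p` when only few `MOD_p` formulas with many
variables occur in each line. All formulas with at most `m ≤ n ^ (1 - δ)` variables, of any depth,
are free: the depth is counted above them. There may be a set `G` of formulas such that every
line has at most `n ^ ε` members of `G` as subformulas, and besides the disjuncts built from
variables, from `MOD_p` formulas with at most `m` variables and from members of `G` by negations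
and disjunctions, whose number is not restricted, every disjunction has at most `n ^ ε` distinct
disjuncts. -/
theorem Pool.Agent.Results.MP_7a4ff1_lc.FewLargeMod.result (p : ℕ) (hp : p.Prime) :
    ∃ F : ℕ → List Clause,
      (∀ n, (∀ C ∈ F n, C.length ≤ n + 2 ∧ ∀ l ∈ C, l.1 < n) ∧ (F n).length ≤ (n + 1) ^ 2 ∧
        Unsat (F n)) ∧
      ∀ R : List Rule, (∀ r ∈ R, r.Sound p) → ∀ d : ℕ, ∀ δ : ℝ, 0 < δ →
        ∃ ε : ℝ, 0 < ε ∧ ∃ n₀ : ℕ, ∀ n : ℕ, n₀ ≤ n → ∀ m : ℕ, (m : ℝ) ≤ (n : ℝ) ^ (1 - δ) →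
          ∀ π : List Fm, Refutation R (F n) π → (∀ A ∈ π, A.depthOver m ≤ d) → ∀ G : Finset Fm,
          (∀ A ∈ π, ({B | B ∈ G ∧ Fm.IsSub B A}.ncard : ℝ) ≤ (n : ℝ) ^ ε) →
          (∀ (k : ℕ) (f : Fin k → Fm), (∃ A ∈ π, Fm.IsSub (Fm.or k f) A) →
            ({B | B ∈ Set.range f ∧ ¬ B.OverV m G}.ncard : ℝ) ≤ (n : ℝ) ^ ε) →
          (2 : ℝ) ^ ((n : ℝ) ^ ε) ≤ numOrMod π ∧ (2 : ℝ) ^ ((n : ℝ) ^ ε) ≤ psize π :=
  Pool.Agent.Helper21.Sml.few_large p hp
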