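import Pool.Agent.Helper13.Frege.Final

open Pool.Agent.Helper21.AC0p

/-- Exponential lower bounds for bounded-depth Frege systems with `MOD_p` connectives.
For every prime `p` there are unsatisfiable CNFs `F n`, in exactly the variables `0, …, n - 1` and
of size at most `(n + 2) ^ 3`, such that for every depth `d` there is `ε > 0` such that for every
finite list `R` of sound schematic rules there is `n₀` such that for all `n ≥ n₀` every
refutation of `F n` by the rules `R` whose lines have depth at most `d` has size at least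
`2 ^ (n ^ ε)`. -/
theorem Pool.Agent.Results.MP_7a4ff1_lc.FullLowerBound.result (p : ℕ) (hp : p.Prime) :
    ∃ F : ℕ → List Clause,
      (∀ n, Unsat (F n) ∧ (∀ j, (∃ C ∈ F n, ∃ l ∈ C, l.1 = j) ↔ j < n) ∧
        ((F n).map fun C => C.length + 1).sum ≤ (n + 2) ^ 3) ∧
      ∀ d : ℕ, ∃ ε : ℝ, 0 < ε ∧ ∀ R : List Rule, (∀ r ∈ R, r.Sound p) →
        ∃ n₀ : ℕ, ∀ n, n₀ ≤ n → ∀ π : List Fm, Refutation R (F n) π →
          (∀ A ∈ π, A.depth ≤ d) → (2 : ℝ) ^ ((n : ℝ) ^ ε) ≤ psize π :=
  Pool.Agent.Helper13.Frege.main p hp
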