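import Pool.Agent.Helper21.Lin.LinFinal

open Pool.Agent.Helper21.AC0p Pool.Agent.Helper21.Lin

/-- Bounded-depth Frege systems with `MOD_p`, even purely semantic ones of bounded fan-in, need
exponentially many lines to refute the CNFs `F n` if every line has size linear in the number
`n` of variables. -/
theorem Pool.Agent.Results.MP_7a4ff1_lc.LinearSizeLines.result (p : ℕ) (hp : p.Prime) :
    ∃ (c : ℕ) (F : ℕ → List Clause),
      (∀ n, (∀ C ∈ F n, C.length ≤ c * Nat.log 2 (n + 2) ∧ ∀ l ∈ C, l.1 < n) ∧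
        (F n).length ≤ (n + 2) ^ c ∧ Unsat (F n)) ∧
      ∀ a d k : ℕ, ∃ γ : ℝ, 0 < γ ∧ ∃ n₀ : ℕ, ∀ n : ℕ, n₀ ≤ n → ∀ π : List Fm,
        SemRefutation p a (F n) π → (∀ A ∈ π, A.depth ≤ d ∧ A.size ≤ k * n) →
          (2 : ℝ) ^ (γ * n) ≤ π.length :=
  linear_lines p hp
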